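import Mathlib
import Pool.Agent.TH794.QD.Planch

/-! A bounded Fourier transform between variable Lebesgue spaces whose defect exponent `r(·)` does
not satisfy `1 ∈ L^{r(·)}`. -/

open MeasureTheory FourierTransform Set Filter
open scoped ENNReal NNReal

noncomputable section

namespace Pool.Agent.Results.MP_598c7e_an.DefectExponentFails

/-- The modular `ρ_p(f) = ∫_{p<∞} |f|^{p(x)} dx + ‖f‖_{L^∞(p=∞)}`. -/
def modular (p : ℝ → ℝ≥0∞) (f : ℝ → ℂ) : ℝ≥0∞ :=
  (∫⁻ x in {x | p x ≠ ∞}, ‖f x‖ₑ ^ (p x).toReal) + eLpNorm f ∞ (volume.restrict {x | p x = ∞})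

/-- `f ∈ L^{p(·)}`: `f` is measurable and `ρ_p(f/t) < ∞` for some `t > 0`. -/
def MemV (p : ℝ → ℝ≥0∞) (f : ℝ → ℂ) : Prop :=
  AEStronglyMeasurable f volume ∧ ∃ t : ℝ, 0 < t ∧ modular p (fun x => f x / t) < ∞

/-- The norm `‖f‖_{p(·)} = inf {t > 0 : ρ_p(f/t) ≤ 1}`. -/
def vnorm (p : ℝ → ℝ≥0∞) (f : ℝ → ℂ) : ℝ≥0∞ :=
  sInf {l | ∃ t : ℝ, 0 < t ∧ l = ENNReal.ofReal t ∧ modular p (fun x => f x / t) ≤ 1}

/-- The Fourier transform is bounded from `L^{p(·)}` to `L^{q(·)}`. -/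
def FourierBounded (p q : ℝ → ℝ≥0∞) : Prop :=
  ∃ C : ℝ≥0, ∀ f : ℝ → ℂ, Integrable f → MemV p f → vnorm q (𝓕 f) ≤ C * vnorm p f

/-- The defect exponent `1/r(x) = 1/p_- - 1/p(x)`. -/
def defect (p : ℝ → ℝ≥0∞) (x : ℝ) : ℝ≥0∞ := ((essInf p volume)⁻¹ - (p x)⁻¹)⁻¹

/-! ### The lacunary set -/

/-- left end points -/
def nn (k : ℕ) : ℝ := 10 ^ (k + 1)

/-- the set `S = ⋃ [10^(k+1), 10^(k+1) + 1]` -/
def S : Set ℝ := ⋃ k : ℕ, Icc (nn k) (nn k + 1)

lemma measurableSet_S : MeasurableSet S := MeasurableSet.iUnion fun _ => measurableSet_Icc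

lemma ten_pow_sum {k l m n : ℕ} (h : 10 ^ (k + 1) + 10 ^ (l + 1) = 10 ^ (m + 1) + 10 ^ (n + 1)) :
    m = k ∨ m = l := by
  have key : ∀ k l m n : ℕ, k ≤ l → m ≤ n →
      10 ^ (k + 1) + 10 ^ (l + 1) = 10 ^ (m + 1) + 10 ^ (n + 1) → n = l ∧ m = k := by
    intro k l m n hkl hmn h
    have h1 : n = l := by
      rcases lt_trichotomy n l with hlt | heq | hgt
      · exfalso
        have a1 : 10 ^ (n + 1 + 1) ≤ 10 ^ (l + 1) := Nat.pow_le_pow_right (by norm_num) (by omega)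
        have a2 : 10 ^ (m + 1) ≤ 10 ^ (n + 1) := Nat.pow_le_pow_right (by norm_num) (by omega)
        have a3 : 0 < 10 ^ (n + 1) := by positivity
        have a4 : 0 < 10 ^ (k + 1) := by positivity
        rw [pow_succ 10 (n + 1)] at a1
        omega
      · exact heq
      · exfalso
        have a1 : 10 ^ (l + 1 + 1) ≤ 10 ^ (n + 1) := Nat.pow_le_pow_right (by norm_num) (by omega)
        have a2 : 10 ^ (k + 1) ≤ 10 ^ (l + 1) := Nat.pow_le_pow_right (by norm_num) (by omega)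
        have a3 : 0 < 10 ^ (l + 1) := by positivity
        have a4 : 0 < 10 ^ (m + 1) := by positivity
        rw [pow_succ 10 (l + 1)] at a1
        omega
    refine ⟨h1, ?_⟩
    subst h1
    have h2 : 10 ^ (k + 1) = 10 ^ (m + 1) := by omega
    have h3 := Nat.pow_right_injective (le_refl 2 |>.trans (by norm_num : 2 ≤ 10)) h2
    omega
  rcases le_total k l with hkl | hkl <;> rcases le_total m n with hmn | hmn
  · have := key k l m n hkl hmn h; omega
  · have := key k l n m hkl hmn (by rw [h, add_comm]); omega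
  · have := key l k m n hkl hmn (by rw [← h, add_comm]); omega
  · have := key l k n m hkl hmn (by rw [add_comm, h, add_comm]); omega

lemma volume_slice (x : ℝ) : volume {t | t ∈ S ∧ x - t ∈ S} ≤ 2 := by
  by_cases hne : ∃ t, t ∈ S ∧ x - t ∈ S
  · obtain ⟨t₀, h1, h2⟩ := hne
    obtain ⟨k₀, hk₀⟩ := mem_iUnion.1 h1
    obtain ⟨l₀, hl₀⟩ := mem_iUnion.1 h2
    have hsub : {t | t ∈ S ∧ x - t ∈ S} ⊆ Icc (nn k₀) (nn k₀ + 1) ∪ Icc (nn l₀) (nn l₀ + 1) := by
      rintro t ⟨g1, g2⟩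
      obtain ⟨k, hk⟩ := mem_iUnion.1 g1
      obtain ⟨l, hl⟩ := mem_iUnion.1 g2
      have b1 : nn k + nn l < nn k₀ + nn l₀ + 3 := by linarith [hk.1, hl.1, hk₀.2, hl₀.2]
      have b2 : nn k₀ + nn l₀ < nn k + nn l + 3 := by linarith [hk.2, hl.2, hk₀.1, hl₀.1]
      unfold nn at b1 b2
      have c1 : 10 ^ (k + 1) + 10 ^ (l + 1) < 10 ^ (k₀ + 1) + 10 ^ (l₀ + 1) + 3 := by
        exact_mod_cast b1
      have c2 : 10 ^ (k₀ + 1) + 10 ^ (l₀ + 1) < 10 ^ (k + 1) + 10 ^ (l + 1) + 3 := by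
        exact_mod_cast b2
      have c3 : 10 ^ (k₀ + 1) + 10 ^ (l₀ + 1) = 10 ^ (k + 1) + 10 ^ (l + 1) := by
        simp only [pow_succ] at c1 c2 ⊢
        omega
      rcases ten_pow_sum c3 with h | h
      · left; rw [← h]; exact hk
      · right; rw [← h]; exact hk
    calc volume {t | t ∈ S ∧ x - t ∈ S} ≤ _ := measure_mono hsub
      _ ≤ volume (Icc (nn k₀) (nn k₀ + 1)) + volume (Icc (nn l₀) (nn l₀ + 1)) :=
          measure_union_le _ _
      _ = 2 := by
          rw [Real.volume_Icc, Real.volume_Icc]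
          simp
          norm_num
  · have : {t | t ∈ S ∧ x - t ∈ S} = ∅ := by
      rw [eq_empty_iff_forall_notMem]
      intro t ht
      exact hne ⟨t, ht⟩
    rw [this]
    simp

lemma volume_S : volume S = ∞ := by
  unfold S
  rw [measure_iUnion]
  · have : ∀ k, volume (Icc (nn k) (nn k + 1)) = 1 := by
      intro k
      rw [Real.volume_Icc]
      simp
    simp_rw [this]
    exact ENNReal.tsum_const_eq_top_of_ne_zero one_ne_zero
  · have key : ∀ k l : ℕ, k < l → Disjoint (Icc (nn k) (nn k + 1)) (Icc (nn l) (nn l + 1)) := by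
      intro k l hkl
      rw [Set.disjoint_left]
      intro x hx hy
      have h1 : (10 : ℝ) ^ (k + 1 + 1) ≤ 10 ^ (l + 1) :=
        pow_le_pow_right₀ (by norm_num) (by omega)
      have h2 : (1 : ℝ) ≤ 10 ^ (k + 1) := one_le_pow₀ (by norm_num)
      have h3 := hx.2
      have h4 := hy.1
      unfold nn at h3 h4
      rw [pow_succ (10 : ℝ) (k + 1)] at h1
      linarith
    intro k l hkl
    rcases lt_or_gt_of_ne hkl with h | h
    · exact key k l h
    · exact (key l k h).symm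
  · exact fun _ => measurableSet_Icc

/-! ### The `L⁴` bound -/

lemma four (g : ℝ → ℂ) (hg : Integrable g) (M : ℝ≥0∞)
    (h : ∫⁻ x, (∫⁻ t, ‖g t‖ₑ * ‖g (x - t)‖ₑ) ^ 2 ≤ M) : ∫⁻ ξ, ‖𝓕 g ξ‖ₑ ^ 4 ≤ M := by
  by_cases hM : M = ∞
  · rw [hM]; exact le_top
  set c : ℝ → ℂ := MeasureTheory.convolution g g (ContinuousLinearMap.mul ℂ ℂ) volume with hc
  have hci : Integrable c := hg.integrable_convolution (ContinuousLinearMap.mul ℂ ℂ) hg
  have hcb : ∀ x, ‖c x‖ₑ ≤ ∫⁻ t, ‖g t‖ₑ * ‖g (x - t)‖ₑ := by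
    intro x
    rw [hc, convolution_def]
    refine (enorm_integral_le_lintegral_enorm _).trans (le_of_eq ?_)
    apply lintegral_congr
    intro t
    rw [ContinuousLinearMap.mul_apply', enorm_mul]
  have hc2 : ∫⁻ x, ‖c x‖ₑ ^ 2 ≤ M := by
    refine le_trans (lintegral_mono fun x => ?_) h
    exact pow_le_pow_left₀ (by positivity) (hcb x) 2
  have hmem : MemLp c 2 := by
    refine ⟨hci.1, ?_⟩
    rw [eLpNorm_lt_top_iff_lintegral_rpow_enorm_lt_top (by norm_num) (by norm_num)]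
    have : ∫⁻ x, ‖c x‖ₑ ^ (2 : ℝ≥0∞).toReal = ∫⁻ x, ‖c x‖ₑ ^ 2 := by
      apply lintegral_congr
      intro x
      rw [ENNReal.toReal_ofNat]
      exact_mod_cast ENNReal.rpow_natCast _ 2
    rw [this]
    exact hc2.trans_lt (lt_top_iff_ne_top.2 hM)
  have hpl := Pool.Agent.TH794.QD.plancherel c hci hmem
  calc ∫⁻ ξ, ‖𝓕 g ξ‖ₑ ^ 4 = ∫⁻ ξ, ‖𝓕 c ξ‖ₑ ^ 2 := by
        apply lintegral_congr
        intro ξ
        have h1 : 𝓕 c ξ = 𝓕 g ξ * 𝓕 g ξ := Real.fourier_mul_convolution_eq hg hg ξ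
        rw [h1, enorm_mul]
        ring
    _ = ∫⁻ x, ‖c x‖ₑ ^ 2 := hpl
    _ ≤ M := hc2

lemma lintegral_conv (u : ℝ → ℝ≥0∞) (hu : AEMeasurable u) :
    ∫⁻ x, ∫⁻ t, u t * u (x - t) = (∫⁻ t, u t) ^ 2 := by
  -- pass to a measurable representative
  have key : ∀ v : ℝ → ℝ≥0∞, Measurable v → ∫⁻ x, ∫⁻ t, v t * v (x - t) = (∫⁻ t, v t) ^ 2 := by
    intro v hv
    rw [lintegral_lintegral_swap]
    · have : ∀ t, ∫⁻ x, v t * v (x - t) = v t * ∫⁻ x, v x := by
        intro t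
        rw [lintegral_const_mul _ (by fun_prop), lintegral_sub_right_eq_self (fun x => v x) t]
      simp_rw [this]
      rw [lintegral_mul_const _ hv]
      ring
    · apply Measurable.aemeasurable
      fun_prop
  have h1 := key (hu.mk u) hu.measurable_mk
  have h2 : ∫⁻ t, u t = ∫⁻ t, hu.mk u t := lintegral_congr_ae hu.ae_eq_mk
  rw [h2, ← h1]
  apply lintegral_congr
  intro x
  apply lintegral_congr_ae
  have h3 : ∀ᵐ t, u (x - t) = hu.mk u (x - t) := by
    have hq : Measure.QuasiMeasurePreserving (fun t : ℝ => x - t) volume volume :=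
      (Measure.measurePreserving_sub_left volume x).quasiMeasurePreserving
    exact hq.ae hu.ae_eq_mk
  filter_upwards [hu.ae_eq_mk, h3] with t ht1 ht2
  rw [ht1, ht2]

lemma hausdorff_young (g : ℝ → ℂ) (hg : Integrable g) :
    ∫⁻ ξ, ‖𝓕 g ξ‖ₑ ^ 4 ≤ (∫⁻ x, ‖g x‖ₑ ^ (4 / 3 : ℝ)) ^ 3 := by
  apply four g hg
  have hgm : AEMeasurable (fun x => ‖g x‖ₑ) := hg.1.enorm
  set u : ℝ → ℝ≥0∞ := fun x => ‖g x‖ₑ ^ (4 / 3 : ℝ) with hu
  have hum : AEMeasurable u := hgm.pow_const _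
  have hshift : ∀ x : ℝ, AEMeasurable (fun t => u (x - t)) := by
    intro x
    have hq : Measure.QuasiMeasurePreserving (fun t : ℝ => x - t) volume volume :=
      (Measure.measurePreserving_sub_left volume x).quasiMeasurePreserving
    exact hum.comp_quasiMeasurePreserving hq
  have hpt : ∀ x : ℝ, (∫⁻ t, ‖g t‖ₑ * ‖g (x - t)‖ₑ) ^ 2 ≤
      (∫⁻ t, u t * u (x - t)) * ∫⁻ t, u t := by
    intro x
    have h1 := ENNReal.lintegral_prod_norm_pow_le (μ := (volume : Measure ℝ))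
      (Finset.univ : Finset (Fin 3))
      (f := ![fun t => u t * u (x - t), fun t => u t, fun t => u (x - t)])
      (by
        intro i _
        fin_cases i
        · exact hum.mul (hshift x)
        · exact hum
        · exact hshift x)
      (p := ![1 / 2, 1 / 4, 1 / 4]) (by
        simp [Fin.sum_univ_three]
        norm_num) (by
        intro i _
        fin_cases i <;> simp)
    simp only [Fin.prod_univ_three, Matrix.cons_val_zero, Matrix.cons_val_one,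
      Matrix.cons_val] at h1
    have h2 : ∀ t, (u t * u (x - t)) ^ (1 / 2 : ℝ) * u t ^ (1 / 4 : ℝ) * u (x - t) ^ (1 / 4 : ℝ) =
        ‖g t‖ₑ * ‖g (x - t)‖ₑ := by
      intro t
      have a1 : ∀ w : ℝ≥0∞, (w ^ (4 / 3 : ℝ)) ^ (1 / 2 : ℝ) * (w ^ (4 / 3 : ℝ)) ^ (1 / 4 : ℝ) = w := by
        intro w
        rw [← ENNReal.rpow_mul, ← ENNReal.rpow_mul,
          ← ENNReal.rpow_add_of_nonneg _ _ (by norm_num) (by norm_num)]
        norm_num
      rw [ENNReal.mul_rpow_of_nonneg _ _ (by norm_num)]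
      calc _ = ((‖g t‖ₑ ^ (4 / 3 : ℝ)) ^ (1 / 2 : ℝ) * (‖g t‖ₑ ^ (4 / 3 : ℝ)) ^ (1 / 4 : ℝ)) *
            ((‖g (x - t)‖ₑ ^ (4 / 3 : ℝ)) ^ (1 / 2 : ℝ) *
              (‖g (x - t)‖ₑ ^ (4 / 3 : ℝ)) ^ (1 / 4 : ℝ)) := by
            simp only [hu]
            ring
        _ = _ := by rw [a1, a1]
    simp_rw [h2] at h1
    have h3 : ∫⁻ t, u (x - t) = ∫⁻ t, u t := lintegral_sub_left_eq_self u x
    rw [h3] at h1
    calc (∫⁻ t, ‖g t‖ₑ * ‖g (x - t)‖ₑ) ^ 2 ≤ ((∫⁻ t, u t * u (x - t)) ^ (1 / 2 : ℝ) *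
          (∫⁻ t, u t) ^ (1 / 4 : ℝ) * (∫⁻ t, u t) ^ (1 / 4 : ℝ)) ^ 2 :=
          pow_le_pow_left₀ (by positivity) h1 2
      _ = _ := by
          rw [mul_assoc, ← ENNReal.rpow_add_of_nonneg _ _ (by norm_num) (by norm_num), mul_pow,
            ← ENNReal.rpow_natCast, ← ENNReal.rpow_natCast, ← ENNReal.rpow_mul,
            ← ENNReal.rpow_mul]
          norm_num
  calc ∫⁻ x, (∫⁻ t, ‖g t‖ₑ * ‖g (x - t)‖ₑ) ^ 2 ≤
        ∫⁻ x, (∫⁻ t, u t * u (x - t)) * ∫⁻ t, u t := lintegral_mono hpt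
    _ ≤ (∫⁻ x, ∫⁻ t, u t * u (x - t)) * ∫⁻ t, u t := by
        by_cases hfin : ∫⁻ t, u t = ∞
        · by_cases h0 : (∫⁻ x, ∫⁻ t, u t * u (x - t)) = 0
          · rw [lintegral_conv u hum, hfin] at h0
            simp at h0
          · rw [hfin, ENNReal.mul_top h0]
            exact le_top
        · rw [lintegral_mul_const' _ _ hfin]
    _ = (∫⁻ x, ‖g x‖ₑ ^ (4 / 3 : ℝ)) ^ 3 := by
        rw [lintegral_conv u hum]
        ring

lemma sidon_bound (g : ℝ → ℂ) (hg : Integrable g) (hS : ∀ x, x ∉ S → g x = 0) :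
    ∫⁻ ξ, ‖𝓕 g ξ‖ₑ ^ 4 ≤ 2 * (∫⁻ x, ‖g x‖ₑ ^ 2) ^ 2 := by
  apply four g hg
  have hgm : AEMeasurable (fun x => ‖g x‖ₑ) := hg.1.enorm
  set u : ℝ → ℝ≥0∞ := fun x => ‖g x‖ₑ ^ 2 with hu
  have hum : AEMeasurable u := hgm.pow_const _
  have hshift : ∀ x : ℝ, AEMeasurable (fun t => ‖g (x - t)‖ₑ) := by
    intro x
    have hq : Measure.QuasiMeasurePreserving (fun t : ℝ => x - t) volume volume :=
      (Measure.measurePreserving_sub_left volume x).quasiMeasurePreserving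
    exact hgm.comp_quasiMeasurePreserving hq
  have hpt : ∀ x : ℝ, (∫⁻ t, ‖g t‖ₑ * ‖g (x - t)‖ₑ) ^ 2 ≤ 2 * ∫⁻ t, u t * u (x - t) := by
    intro x
    set A : Set ℝ := {t | t ∈ S ∧ x - t ∈ S} with hA
    have hAm : MeasurableSet A :=
      measurableSet_S.inter (measurableSet_S.preimage (measurable_const.sub measurable_id))
    have e1 : ∫⁻ t, ‖g t‖ₑ * ‖g (x - t)‖ₑ = ∫⁻ t in A, ‖g t‖ₑ * ‖g (x - t)‖ₑ := by
      rw [← lintegral_indicator hAm]
      apply lintegral_congr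
      intro t
      by_cases ht : t ∈ A
      · rw [indicator_of_mem ht]
      · rw [indicator_of_notMem ht]
        by_cases h1 : t ∈ S
        · have h2 : x - t ∉ S := fun h => ht ⟨h1, h⟩
          rw [hS _ h2]
          simp
        · rw [hS _ h1]
          simp
    have h1 := ENNReal.lintegral_mul_le_Lp_mul_Lq (volume.restrict A) (Real.HolderConjugate.two_two)
      (f := fun t => ‖g t‖ₑ * ‖g (x - t)‖ₑ) (g := fun _ => 1)
      ((hgm.mul (hshift x)).restrict) aemeasurable_const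
    simp only [Pi.mul_apply, mul_one, ENNReal.one_rpow, lintegral_const, one_mul,
      Measure.restrict_apply_univ] at h1
    rw [e1]
    calc (∫⁻ t in A, ‖g t‖ₑ * ‖g (x - t)‖ₑ) ^ 2 ≤
          ((∫⁻ t in A, (‖g t‖ₑ * ‖g (x - t)‖ₑ) ^ (2 : ℝ)) ^ (1 / 2 : ℝ) *
            volume A ^ (1 / 2 : ℝ)) ^ 2 := pow_le_pow_left₀ (by positivity) h1 2
      _ = (∫⁻ t in A, (‖g t‖ₑ * ‖g (x - t)‖ₑ) ^ (2 : ℝ)) * volume A := by
          rw [mul_pow, ← ENNReal.rpow_natCast, ← ENNReal.rpow_natCast, ← ENNReal.rpow_mul,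
            ← ENNReal.rpow_mul]
          norm_num
      _ ≤ (∫⁻ t, u t * u (x - t)) * 2 := by
          apply mul_le_mul'
          · refine (lintegral_mono' Measure.restrict_le_self le_rfl).trans (le_of_eq ?_)
            apply lintegral_congr
            intro t
            rw [hu]
            simp only
            rw [← mul_pow]
            exact_mod_cast ENNReal.rpow_natCast _ 2
          · exact volume_slice x
      _ = _ := mul_comm _ _
  calc ∫⁻ x, (∫⁻ t, ‖g t‖ₑ * ‖g (x - t)‖ₑ) ^ 2 ≤ ∫⁻ x, 2 * ∫⁻ t, u t * u (x - t) :=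
        lintegral_mono hpt
    _ = 2 * ∫⁻ x, ∫⁻ t, u t * u (x - t) := lintegral_const_mul' _ _ (by norm_num)
    _ = _ := by rw [lintegral_conv u hum]

/-! ### The exponents -/

open Classical in
/-- the exponent `p`: `2` on `S`, `4/3` off `S` -/
def pe (x : ℝ) : ℝ≥0∞ := if x ∈ S then 2 else 4 / 3

/-- the exponent `q = 4` -/
def qe (_ : ℝ) : ℝ≥0∞ := 4

lemma pe_mem {x : ℝ} (h : x ∈ S) : pe x = 2 := by unfold pe; rw [if_pos h]
lemma pe_notMem {x : ℝ} (h : x ∉ S) : pe x = 4 / 3 := by unfold pe; rw [if_neg h]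

lemma measurable_pe : Measurable pe :=
  Measurable.ite measurableSet_S measurable_const measurable_const

lemma div_ne_top : (4 / 3 : ℝ≥0∞) ≠ ∞ := ENNReal.div_ne_top (by norm_num) (by norm_num)

lemma pe_ne_top (x : ℝ) : pe x ≠ ∞ := by
  by_cases h : x ∈ S
  · rw [pe_mem h]; norm_num
  · rw [pe_notMem h]; exact div_ne_top

lemma toReal_four_thirds : (4 / 3 : ℝ≥0∞).toReal = 4 / 3 := by
  rw [ENNReal.toReal_div]; norm_num

lemma four_thirds_le_two : (4 / 3 : ℝ≥0∞) ≤ 2 := by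
  rw [← ENNReal.toReal_le_toReal div_ne_top (by norm_num), toReal_four_thirds]
  norm_num

lemma one_le_four_thirds : (1 : ℝ≥0∞) ≤ 4 / 3 := by
  rw [← ENNReal.toReal_le_toReal (by norm_num) div_ne_top, toReal_four_thirds]
  norm_num

lemma modular_pe (h : ℝ → ℂ) : modular pe h =
    (∫⁻ x in S, ‖h x‖ₑ ^ 2) + ∫⁻ x in Sᶜ, ‖h x‖ₑ ^ (4 / 3 : ℝ) := by
  unfold modular
  have e1 : {x | pe x ≠ ∞} = univ := by
    ext x
    simp [pe_ne_top x]
  have e2 : {x | pe x = ∞} = ∅ := by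
    ext x
    simp [pe_ne_top x]
  rw [e1, e2, Measure.restrict_univ, Measure.restrict_empty, eLpNorm_measure_zero, add_zero,
    ← lintegral_add_compl _ measurableSet_S]
  congr 1
  · apply setLIntegral_congr_fun measurableSet_S
    intro x hx
    simp only
    rw [pe_mem hx, ENNReal.toReal_ofNat]
    exact_mod_cast ENNReal.rpow_natCast _ 2
  · apply setLIntegral_congr_fun measurableSet_S.compl
    intro x hx
    simp only
    rw [pe_notMem hx, toReal_four_thirds]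

lemma modular_qe (h : ℝ → ℂ) : modular qe h = ∫⁻ x, ‖h x‖ₑ ^ 4 := by
  unfold modular
  have e1 : {x | qe x ≠ ∞} = univ := by
    ext x
    simp [qe]
  have e2 : {x | qe x = ∞} = ∅ := by
    ext x
    simp [qe]
  rw [e1, e2, Measure.restrict_univ, Measure.restrict_empty, eLpNorm_measure_zero, add_zero]
  apply lintegral_congr
  intro x
  unfold qe
  rw [ENNReal.toReal_ofNat]
  exact_mod_cast ENNReal.rpow_natCast _ 4

lemma unit_ball (h : ℝ → ℂ) (hh : Integrable h) (hm : modular pe h ≤ 1) :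
    ∫⁻ ξ, ‖𝓕 h ξ‖ₑ ^ 4 ≤ 81 := by
  rw [modular_pe] at hm
  set h1 : ℝ → ℂ := S.indicator h with hh1
  set h2 : ℝ → ℂ := Sᶜ.indicator h with hh2
  have hi1 : Integrable h1 := hh.indicator measurableSet_S
  have hi2 : Integrable h2 := hh.indicator measurableSet_S.compl
  have hsum : h = h1 + h2 := by
    rw [hh1, hh2, Set.indicator_self_add_compl]
  have b1 : ∫⁻ x, ‖h1 x‖ₑ ^ 2 ≤ 1 := by
    have : ∫⁻ x, ‖h1 x‖ₑ ^ 2 = ∫⁻ x in S, ‖h x‖ₑ ^ 2 := by
      rw [← lintegral_indicator measurableSet_S]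
      apply lintegral_congr
      intro x
      by_cases hx : x ∈ S
      · rw [hh1, indicator_of_mem hx, indicator_of_mem hx]
      · rw [hh1, indicator_of_notMem hx, indicator_of_notMem hx]; simp
    rw [this]
    exact le_self_add.trans hm
  have b2 : ∫⁻ x, ‖h2 x‖ₑ ^ (4 / 3 : ℝ) ≤ 1 := by
    have : ∫⁻ x, ‖h2 x‖ₑ ^ (4 / 3 : ℝ) = ∫⁻ x in Sᶜ, ‖h x‖ₑ ^ (4 / 3 : ℝ) := by
      rw [← lintegral_indicator measurableSet_S.compl]
      apply lintegral_congr
      intro x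
      by_cases hx : x ∈ Sᶜ
      · rw [hh2, indicator_of_mem hx, indicator_of_mem hx]
      · rw [hh2, indicator_of_notMem hx, indicator_of_notMem hx, enorm_zero,
          ENNReal.zero_rpow_of_pos (by norm_num)]
    rw [this]
    exact le_add_self.trans hm
  have c1 : ∫⁻ ξ, ‖𝓕 h1 ξ‖ₑ ^ 4 ≤ 2 := by
    refine (sidon_bound h1 hi1 (fun x hx => indicator_of_notMem hx _)).trans ?_
    calc 2 * (∫⁻ x, ‖h1 x‖ₑ ^ 2) ^ 2 ≤ 2 * 1 ^ 2 := by gcongr
      _ = 2 := by norm_num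
  have c2 : ∫⁻ ξ, ‖𝓕 h2 ξ‖ₑ ^ 4 ≤ 1 := by
    refine (hausdorff_young h2 hi2).trans ?_
    calc (∫⁻ x, ‖h2 x‖ₑ ^ (4 / 3 : ℝ)) ^ 3 ≤ 1 ^ 3 := by gcongr
      _ = 1 := by norm_num
  have hint : ∀ g : ℝ → ℂ, Integrable g → ∀ ξ : ℝ,
      Integrable (fun v : ℝ => Real.fourierChar (-(v * ξ)) • g v) := by
    intro g hg ξ
    refine hg.mono ?_ ?_
    · apply AEStronglyMeasurable.smul _ hg.1
      apply Continuous.aestronglyMeasurable
      fun_prop
    · filter_upwards with v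
      rw [Circle.norm_smul]
  have hadd : ∀ ξ, 𝓕 h ξ = 𝓕 h1 ξ + 𝓕 h2 ξ := by
    intro ξ
    rw [hsum, Real.fourier_real_eq, Real.fourier_real_eq, Real.fourier_real_eq, ← integral_add]
    · apply integral_congr_ae
      filter_upwards with v
      rw [Pi.add_apply, smul_add]
    · exact hint h1 hi1 ξ
    · exact hint h2 hi2 ξ
  have hcont : ∀ g : ℝ → ℂ, Integrable g → Measurable fun ξ => ‖𝓕 g ξ‖ₑ := by
    intro g hg
    have : Continuous (𝓕 g) := VectorFourier.fourierIntegral_continuous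
      Real.continuous_fourierChar (by exact continuous_inner) hg
    exact this.measurable.enorm
  calc ∫⁻ ξ, ‖𝓕 h ξ‖ₑ ^ 4 ≤ ∫⁻ ξ, 8 * (‖𝓕 h1 ξ‖ₑ ^ 4 + ‖𝓕 h2 ξ‖ₑ ^ 4) := by
        apply lintegral_mono
        intro ξ
        simp only
        rw [hadd]
        have h3 := ENNReal.rpow_add_le_mul_rpow_add_rpow ‖𝓕 h1 ξ‖ₑ ‖𝓕 h2 ξ‖ₑ
          (p := 4) (by norm_num)
        have e4 : ∀ w : ℝ≥0∞, w ^ (4 : ℝ) = w ^ 4 := fun w => by
          exact_mod_cast ENNReal.rpow_natCast w 4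
        have e5 : (2 : ℝ≥0∞) ^ ((4 : ℝ) - 1) = 8 := by
          rw [show (4 : ℝ) - 1 = ((3 : ℕ) : ℝ) by norm_num, ENNReal.rpow_natCast]
          norm_num
        rw [e4, e4, e4, e5] at h3
        exact (pow_le_pow_left₀ (by positivity) (enorm_add_le _ _) 4).trans h3
    _ = 8 * (∫⁻ ξ, ‖𝓕 h1 ξ‖ₑ ^ 4) + 8 * ∫⁻ ξ, ‖𝓕 h2 ξ‖ₑ ^ 4 := by
        rw [lintegral_const_mul' _ _ (by norm_num), lintegral_add_left ((hcont h1 hi1).pow_const 4),
          mul_add]
    _ ≤ 8 * 2 + 8 * 1 := by gcongr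
    _ ≤ 81 := by norm_num

lemma fourierBounded : FourierBounded pe qe := by
  refine ⟨3, ?_⟩
  intro f hf _
  have key : ∀ t : ℝ, 0 < t → modular pe (fun x => f x / t) ≤ 1 →
      vnorm qe (𝓕 f) ≤ 3 * ENNReal.ofReal t := by
    intro t ht hmod
    have h1 := unit_ball (fun x => f x / t) (hf.div_const _) hmod
    have e1 : ∀ ξ, 𝓕 (fun x => f x / (t : ℂ)) ξ = 𝓕 f ξ / t := by
      intro ξ
      rw [Real.fourier_real_eq, Real.fourier_real_eq, ← integral_div]
      apply integral_congr_ae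
      filter_upwards with v
      simp only [Circle.smul_def, smul_eq_mul]
      ring
    have h2 : modular qe (fun x => 𝓕 f x / ((3 * t : ℝ) : ℂ)) ≤ 1 := by
      rw [modular_qe]
      have e2 : ∀ ξ, ‖𝓕 f ξ / ((3 * t : ℝ) : ℂ)‖ₑ ^ 4 =
          ‖𝓕 (fun x => f x / (t : ℂ)) ξ‖ₑ ^ 4 * 81⁻¹ := by
        intro ξ
        have e3 : 𝓕 f ξ / ((3 * t : ℝ) : ℂ) = 𝓕 f ξ / t * (3 : ℂ)⁻¹ := by
          push_cast
          rw [div_mul_eq_div_div, div_right_comm]
          rfl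
        rw [e1, e3, enorm_mul, mul_pow]
        congr 1
        rw [enorm_inv (by norm_num)]
        have : ‖(3 : ℂ)‖ₑ = 3 := by
          rw [← ofReal_norm]
          norm_num
        rw [this, ← ENNReal.inv_pow]
        norm_num
      simp_rw [e2]
      rw [lintegral_mul_const' _ _ (by simp)]
      calc _ ≤ (81 : ℝ≥0∞) * 81⁻¹ := by gcongr
        _ = 1 := ENNReal.mul_inv_cancel (by norm_num) (by norm_num)
    refine sInf_le ⟨3 * t, by positivity, ?_, h2⟩
    rw [ENNReal.ofReal_mul (by norm_num)]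
    norm_num
  have h3 : vnorm qe (𝓕 f) / 3 ≤ vnorm pe f := by
    apply le_sInf
    rintro l ⟨t, ht, rfl, hmod⟩
    rw [ENNReal.div_le_iff (by norm_num) (by norm_num), mul_comm]
    exact key t ht hmod
  rw [ENNReal.div_le_iff (by norm_num) (by norm_num), mul_comm] at h3
  exact_mod_cast h3

lemma essInf_pe : essInf pe volume = 4 / 3 := by
  apply le_antisymm
  · rw [essInf_eq_sSup]
    apply sSup_le
    intro a ha
    have hv : volume (Sᶜ) ≠ 0 := by
      have hsub : Ioo (0 : ℝ) 1 ⊆ Sᶜ := by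
        intro x hx hxS
        obtain ⟨k, hk⟩ := mem_iUnion.1 hxS
        have : (1 : ℝ) ≤ 10 ^ (k + 1) := one_le_pow₀ (by norm_num)
        have h1 := hk.1
        unfold nn at h1
        linarith [hx.2]
      intro h0
      have h1 := measure_mono (μ := volume) hsub
      rw [h0, Real.volume_Ioo] at h1
      norm_num at h1
    by_contra hcon
    push Not at hcon
    apply hv
    refine measure_mono_null ?_ ha
    intro x hx
    simp only [mem_ofPred_eq]
    rw [pe_notMem hx]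
    exact hcon
  · rw [essInf_eq_sSup]
    apply le_sSup
    simp only [mem_ofPred_eq]
    have : {x | pe x < 4 / 3} = ∅ := by
      ext x
      simp only [mem_ofPred_eq, mem_empty_iff_false, iff_false, not_lt]
      by_cases h : x ∈ S
      · rw [pe_mem h]; exact four_thirds_le_two
      · rw [pe_notMem h]
    rw [this]
    exact measure_empty

lemma defect_pe {x : ℝ} (hx : x ∈ S) : defect pe x = 4 := by
  unfold defect
  rw [essInf_pe, pe_mem hx]
  have h1 : ((4 / 3 : ℝ≥0∞)⁻¹ - 2⁻¹) = 4⁻¹ := by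
    rw [← ENNReal.toReal_eq_toReal_iff' (by
      apply ne_top_of_le_ne_top _ tsub_le_self
      simp) (by simp)]
    rw [ENNReal.toReal_sub_of_le (ENNReal.inv_le_inv.2 four_thirds_le_two) (by simp)]
    rw [ENNReal.toReal_inv, ENNReal.toReal_inv, ENNReal.toReal_inv, toReal_four_thirds]
    norm_num
  rw [h1, inv_inv]

/-- **Main theorem.** There are exponents `p, q` such that the Fourier transform is bounded from
`L^{p(·)}(ℝ)` to `L^{q(·)}(ℝ)` but `1 ∉ L^{r(·)}(ℝ)`, where `1/r(x) = 1/p_- - 1/p(x)`. -/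
theorem result : ∃ p q : ℝ → ℝ≥0∞, Measurable p ∧ Measurable q ∧ (∀ x, 1 ≤ p x) ∧
    (∀ x, 1 ≤ q x) ∧ FourierBounded p q ∧ ¬ MemV (defect p) (fun _ => 1) := by
  refine ⟨pe, qe, measurable_pe, measurable_const, ?_, ?_, fourierBounded, ?_⟩
  · intro x
    by_cases h : x ∈ S
    · rw [pe_mem h]; norm_num
    · rw [pe_notMem h]; exact one_le_four_thirds
  · intro x
    unfold qe
    norm_num
  · rintro ⟨-, t, ht, hfin⟩
    have h1 : ∫⁻ x in S, ‖(1 : ℂ) / t‖ₑ ^ (4 : ℝ) ≤ modular (defect pe) (fun _ => 1 / (t : ℂ)) := by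
      unfold modular
      refine le_trans ?_ le_self_add
      have hsub : S ⊆ {x | defect pe x ≠ ∞} := by
        intro x hx
        simp only [mem_ofPred_eq]
        rw [defect_pe hx]
        norm_num
      refine le_trans ?_ (lintegral_mono_set hsub)
      apply le_of_eq
      apply setLIntegral_congr_fun measurableSet_S
      intro x hx
      simp only
      rw [defect_pe hx, ENNReal.toReal_ofNat]
    rw [setLIntegral_const, volume_S, ENNReal.mul_top] at h1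
    · exact absurd hfin (not_lt.2 h1)
    · apply (ENNReal.rpow_pos _ _).ne'
      · rw [enorm_pos]
        have : (t : ℂ) ≠ 0 := by exact_mod_cast ht.ne'
        simp [this]
      · exact enorm_ne_top

end Pool.Agent.Results.MP_598c7e_an.DefectExponentFails
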